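import Pool.Agent.Helper69.GT.Fr

set_option autoImplicit false

/-! NDA: the first Hermitian form is anisotropic on pairs. -/

namespace Pool.Agent.Helper51.GT

/-- Two orthogonality relations in dimension three. -/
theorem nda_cross {K : Type} [Field K] {A1 A2 A3 C1 C2 C3 a1 a2 a3 c1 c2 c3 : K}
    (h1 : A1 * a1 + A2 * a2 + A3 * a3 = 0) (h2 : A1 * c1 + A2 * c2 + A3 * c3 = 0)
    (h3 : C1 * a1 + C2 * a2 + C3 * a3 = 0) (h4 : C1 * c1 + C2 * c2 + C3 * c3 = 0) :
    (A1 * C2 - A2 * C1) * (a1 * c2 - a2 * c1) = 0 := by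
  linear_combination (C1 * c1 + C2 * c2) * h1 - A3 * a3 * h4 - (C1 * a1 + C2 * a2) * h2 +
    A3 * c3 * h3

theorem st_NDA : ST_NDA := by
  intro K _ φ hD a ha c hc hac
  have h2 := hD.two
  have A := fra_rel hD ha
  have B := fra_rel hD hc
  have hN : a * fr φ 2 a * fr φ 4 a * fr φ 6 a = 1 := ha.1
  have hN' : c * fr φ 2 c * fr φ 4 c * fr φ 6 c = 1 := hc.1
  have hne : a * fr φ 2 c ≠ fr φ 2 a * c := fun h => hac (fra_eq hD hN hN' h)
  constructor
  · intro hf0
    apply hne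
    have hf1 := congrArg (fr φ 1) hf0
    unfold hf at hf0 hf1
    simp only [map_add, map_mul, map_zero, fra_fr, Nat.reduceAdd, hD.ord] at hf1
    have s0 : fr φ 7 (fr φ 1 a * fr φ 7 c - fr φ 7 a * fr φ 1 c) =
        a * fr φ 6 c - fr φ 6 a * c := by
      simp only [map_sub, map_mul, fra_fr, Nat.reduceAdd, hD.ord]
      rw [show (14 : ℕ) = 6 + 8 from rfl, fra_add8 hD, fra_add8 hD]
    have s1 : fr φ 2 (a * fr φ 6 c - fr φ 6 a * c) = fr φ 2 a * c - a * fr φ 2 c := by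
      simp only [map_sub, map_mul, fra_fr, Nat.reduceAdd, hD.ord]
    revert hf0 hf1 s0 s1
    obtain ⟨n0, n1, t0, t1, e0, e1, e2, e3, e4, e5, e6, e7⟩ := A
    obtain ⟨m0, m1, u0, u1, g0, g1, g2, g3, g4, g5, g6, g7⟩ := B
    revert n0 n1 t0 t1 e0 e1 e2 e3 e4 e5 e6 e7 m0 m1 u0 u1 g0 g1 g2 g3 g4 g5 g6 g7
    generalize fr φ 1 a = a1
    generalize fr φ 2 a = a2
    generalize fr φ 3 a = a3
    generalize fr φ 4 a = a4
    generalize fr φ 5 a = a5
    generalize fr φ 6 a = a6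
    generalize fr φ 7 a = a7
    generalize fr φ 1 c = c1
    generalize fr φ 2 c = c2
    generalize fr φ 3 c = c3
    generalize fr φ 4 c = c4
    generalize fr φ 5 c = c5
    generalize fr φ 6 c = c6
    generalize fr φ 7 c = c7
    intro n0 n1 t0 t1 e0 e1 e2 e3 e4 e5 e6 e7 m0 m1 u0 u1 g0 g1 g2 g3 g4 g5 g6 g7 hf0 hf1 s0 s1
    have k1 : a7 * a + (a1 + a7) * a2 + a5 * a4 = 0 := by
      linear_combination e1 - a4 * t1 - a7 * t0 + (a7 * a + a7 * a2 + a5 * a4 + a4 * a7) * h2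
    have k2 : a7 * c + (a1 + a7) * c2 + a5 * c4 = 0 := by
      linear_combination hf0 - c4 * t1 - a7 * u0 + (a7 * c + a7 * c2 + a5 * c4 + c4 * a7) * h2
    have k3 : c7 * a + (c1 + c7) * a2 + c5 * a4 = 0 := by
      linear_combination hf1 + a2 * u1 - (a2 * c3 + a2 * c5) * h2
    have k4 : c7 * c + (c1 + c7) * c2 + c5 * c4 = 0 := by
      linear_combination g1 - c4 * u1 - c7 * u0 + (c7 * c + c7 * c2 + c5 * c4 + c4 * c7) * h2
    have k5 := nda_cross k1 k2 k3 k4
    have k6 : a7 * (c1 + c7) - (a1 + a7) * c7 = a7 * c1 - a1 * c7 := by ring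
    rw [k6] at k5
    rcases mul_eq_zero.mp k5 with k7 | k7
    · have k8 : a1 * c7 - a7 * c1 = 0 := by linear_combination -k7
      rw [k8, map_zero] at s0
      rw [← s0, map_zero] at s1
      linear_combination s1
    · linear_combination k7
  · intro h0
    apply hne
    unfold gm at h0
    have h5 : (fr φ 5 a)⁻¹ ≠ 0 := by
      rw [Ne, inv_eq_zero, map_eq_zero]
      rintro rfl
      simp at hN
    have h6 := (mul_eq_zero.mp h0).resolve_right h5
    linear_combination h6 - (c * fr φ 2 a) * h2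

end Pool.Agent.Helper51.GT
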