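import Pool.Agent.Helper69.GT.Fr
import Pool.Agent.Helper69.GT.NDA

set_option autoImplicit false

/-! NDB: the second Hermitian form is anisotropic on pairs. -/

namespace Pool.Agent.Helper51.GT

/-- The conjugates of `β_x` and their relations. -/
theorem ndb_bt {K : Type} [Field K] {φ : K ≃+* K} (h : Dat φ) {x : K} (hx : x ∈ XS φ) :
    bt φ x * fr φ 2 (bt φ x) * fr φ 4 (bt φ x) * fr φ 6 (bt φ x) = 1 ∧
    tr4 φ (bt φ x) = 0 ∧ kf φ (bt φ x) (bt φ x) = 0 := by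
  have A := fra_rel h hx
  have s9 : fr φ 9 x = fr φ 1 x := fra_add8 h 1 x
  have s10 : fr φ 10 x = fr φ 2 x := fra_add8 h 2 x
  have s11 : fr φ 11 x = fr φ 3 x := fra_add8 h 3 x
  have s12 : fr φ 12 x = fr φ 4 x := fra_add8 h 4 x
  have f1 : fr φ 1 (bt φ x) = fr φ 6 x * (fr φ 1 x * fr φ 3 x)⁻¹ := by
    simp only [bt, map_mul, map_inv₀, fra_fr, Nat.reduceAdd]
  have f2 : fr φ 2 (bt φ x) = fr φ 7 x * (fr φ 2 x * fr φ 4 x)⁻¹ := by
    simp only [bt, map_mul, map_inv₀, fra_fr, Nat.reduceAdd]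
  have f4 : fr φ 4 (bt φ x) = fr φ 1 x * (fr φ 4 x * fr φ 6 x)⁻¹ := by
    simp only [bt, map_mul, map_inv₀, fra_fr, Nat.reduceAdd, s9]
  have f5 : fr φ 5 (bt φ x) = fr φ 2 x * (fr φ 5 x * fr φ 7 x)⁻¹ := by
    simp only [bt, map_mul, map_inv₀, fra_fr, Nat.reduceAdd, s10]
  have f6 : fr φ 6 (bt φ x) = fr φ 3 x * (fr φ 6 x * x)⁻¹ := by
    simp only [bt, map_mul, map_inv₀, fra_fr, Nat.reduceAdd, s11, h.ord]
  have f7 : fr φ 7 (bt φ x) = fr φ 4 x * (fr φ 7 x * fr φ 1 x)⁻¹ := by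
    simp only [bt, map_mul, map_inv₀, fra_fr, Nat.reduceAdd, s12, s9]
  unfold tr4 kf
  rw [f1, f2, f4, f5, f6, f7]
  unfold bt
  revert A
  generalize fr φ 1 x = x1
  generalize fr φ 2 x = x2
  generalize fr φ 3 x = x3
  generalize fr φ 4 x = x4
  generalize fr φ 5 x = x5
  generalize fr φ 6 x = x6
  generalize fr φ 7 x = x7
  rintro ⟨n0, n1, t0, t1, e0, e1, e2, e3, e4, e5, e6, e7⟩
  have hx0 : x ≠ 0 := by rintro rfl; simp at n0
  have hx1 : x1 ≠ 0 := by rintro rfl; simp at n1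
  have hx2 : x2 ≠ 0 := by rintro rfl; simp at n0
  have hx3 : x3 ≠ 0 := by rintro rfl; simp at n1
  have hx4 : x4 ≠ 0 := by rintro rfl; simp at n0
  have hx5 : x5 ≠ 0 := by rintro rfl; simp at n1
  have hx6 : x6 ≠ 0 := by rintro rfl; simp at n0
  have hx7 : x7 ≠ 0 := by rintro rfl; simp at n1
  refine ⟨?_, ?_, ?_⟩
  · calc x5 * (x * x2)⁻¹ * (x7 * (x2 * x4)⁻¹) * (x1 * (x4 * x6)⁻¹) * (x3 * (x6 * x)⁻¹) =
        (x1 * x3 * x5 * x7) * ((x * x2 * x4 * x6)⁻¹) ^ 2 := by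
          field_simp
      _ = 1 := by rw [n0, n1]; simp
  · have key : (x5 * (x * x2)⁻¹ + x7 * (x2 * x4)⁻¹ + x1 * (x4 * x6)⁻¹ + x3 * (x6 * x)⁻¹) *
        (x * x2 * x4 * x6) = x4 * x5 * x6 + x6 * x7 * x + x * x1 * x2 + x2 * x3 * x4 := by
      field_simp
    rw [n0, mul_one] at key
    rw [key]
    linear_combination x4 * e0 + x * e1 - x * x1 * x4 * h.two - x * x3 * x4 * h.two
  · have key : (x5 * (x * x2)⁻¹ * (x2 * (x5 * x7)⁻¹) + x5 * (x * x2)⁻¹ * (x4 * (x7 * x1)⁻¹) +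
        x7 * (x2 * x4)⁻¹ * (x4 * (x7 * x1)⁻¹) + x3 * (x6 * x)⁻¹ * (x6 * (x1 * x3)⁻¹)) *
        (x7 * x * x1 * x2) = x1 * x2 + x4 * x5 + x * x7 + x2 * x7 := by
      field_simp
    have hne : x7 * x * x1 * x2 ≠ 0 :=
      mul_ne_zero (mul_ne_zero (mul_ne_zero hx7 hx0) hx1) hx2
    have h0 : x1 * x2 + x4 * x5 + x * x7 + x2 * x7 = 0 := by linear_combination e7
    rw [h0] at key
    exact (mul_eq_zero.mp key).resolve_right hne

/-- The form `kf` is Hermitian on elements of trace zero. -/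
theorem ndb_symm {K : Type} [Field K] {φ : K ≃+* K} (h : Dat φ) {f g : K} (hf : tr4 φ f = 0) :
    kf φ g f = fr φ 1 (kf φ f g) := by
  have t1 := congrArg (fr φ 1) hf
  unfold tr4 at t1
  unfold kf
  simp only [map_add, map_mul, map_zero, fra_fr, Nat.reduceAdd, h.ord] at t1 ⊢
  linear_combination -g * t1 + (g * fr φ 5 f + g * fr φ 7 f) * h.two

theorem st_NDB : ST_NDB := by
  intro K _ φ hD a ha b hb hab hk
  have h2 := hD.two
  obtain ⟨nf, tf, kff⟩ := ndb_bt hD hb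
  obtain ⟨ng, tg, kgg⟩ := ndb_bt hD ha
  have kgf := ndb_symm hD (g := bt φ a) tf
  rw [hk, map_zero] at kgf
  have hfg : bt φ b = bt φ a := by
    revert nf tf kff ng tg kgg kgf hk
    generalize bt φ b = f
    generalize bt φ a = g
    intro hk nf tf kff ng tg kgg kgf
    apply fra_eq hD nf ng
    unfold kf at hk kff kgg kgf
    have c1 : (fr φ 5 f + fr φ 7 f) * f + fr φ 7 f * fr φ 2 f + fr φ 1 f * fr φ 6 f = 0 := by
      linear_combination kff
    have c2 : (fr φ 5 f + fr φ 7 f) * g + fr φ 7 f * fr φ 2 g + fr φ 1 f * fr φ 6 g = 0 := by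
      linear_combination kgf
    have c3 : (fr φ 5 g + fr φ 7 g) * f + fr φ 7 g * fr φ 2 f + fr φ 1 g * fr φ 6 f = 0 := by
      linear_combination hk
    have c4 : (fr φ 5 g + fr φ 7 g) * g + fr φ 7 g * fr φ 2 g + fr φ 1 g * fr φ 6 g = 0 := by
      linear_combination kgg
    have c5 := nda_cross c1 c2 c3 c4
    have c6 : (fr φ 5 f + fr φ 7 f) * fr φ 7 g - fr φ 7 f * (fr φ 5 g + fr φ 7 g) =
        fr φ 5 f * fr φ 7 g - fr φ 7 f * fr φ 5 g := by ring
    rw [c6] at c5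
    rcases mul_eq_zero.mp c5 with c7 | c7
    · have s := congrArg (fr φ 3) c7
      simp only [map_sub, map_mul, map_zero, fra_fr, Nat.reduceAdd, hD.ord] at s
      rw [show (10 : ℕ) = 2 + 8 from rfl, fra_add8 hD, fra_add8 hD] at s
      linear_combination s
    · linear_combination c7
  apply hab
  have A := fra_rel hD ha
  have B := fra_rel hD hb
  have ha0 : a ≠ 0 := by
    rintro rfl
    have := ha.1
    simp at this
  have hb0 : b ≠ 0 := by
    rintro rfl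
    have := hb.1
    simp at this
  have haN : a * fr φ 2 a * fr φ 4 a * fr φ 6 a = 1 := ha.1
  have hbN : b * fr φ 2 b * fr φ 4 b * fr φ 6 b = 1 := hb.1
  -- the quotient
  have hN : ∀ i, fr φ i a ≠ 0 := fun i => by rw [Ne, map_eq_zero]; exact ha0
  have hN' : ∀ i, fr φ i b ≠ 0 := fun i => by rw [Ne, map_eq_zero]; exact hb0
  set r := a / b with hr
  have har : a = r * b := by rw [hr, div_mul_cancel₀ _ hb0]
  have hr0 : r ≠ 0 := div_ne_zero ha0 hb0
  have r5 : fr φ 5 r = r * fr φ 2 r := by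
    rw [har] at hfg
    unfold bt at hfg
    simp only [map_mul, mul_inv] at hfg
    have e2 : fr φ 2 r ≠ 0 := by rw [Ne, map_eq_zero]; exact hr0
    have e3 := hN' 2
    have e4 := hN' 5
    field_simp at hfg
    exact hfg.symm
  have r2 : fr φ 2 r = fr φ 5 r * fr φ 7 r := by
    have := congrArg (fr φ 5) r5
    simp only [map_mul, fra_fr, Nat.reduceAdd] at this
    rw [show (10 : ℕ) = 2 + 8 from rfl, fra_add8 hD] at this
    exact this
  have r7 : fr φ 7 r = fr φ 2 r * fr φ 4 r := by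
    have := congrArg (fr φ 2) r5
    simp only [map_mul, fra_fr, Nat.reduceAdd] at this
    exact this
  have hrN : r * fr φ 2 r * fr φ 4 r * fr φ 6 r = 1 := by
    rw [har] at haN
    simp only [map_mul] at haN
    calc r * fr φ 2 r * fr φ 4 r * fr φ 6 r = (r * fr φ 2 r * fr φ 4 r * fr φ 6 r) *
        (b * fr φ 2 b * fr φ 4 b * fr φ 6 b) := by rw [hbN, mul_one]
      _ = 1 := by rw [← haN]; ring
  have e2 : fr φ 2 r ≠ 0 := by rw [Ne, map_eq_zero]; exact hr0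
  have r3 : r * fr φ 2 r * fr φ 4 r = 1 := by
    have h1 : fr φ 2 r * (r * fr φ 2 r * fr φ 4 r) = fr φ 2 r * 1 := by
      rw [mul_one]
      nth_rewrite 3 [r2]
      rw [r5, r7]
      ring
    exact mul_left_cancel₀ e2 h1
  have r6 : fr φ 6 r = 1 := by
    rw [r3, one_mul] at hrN
    exact hrN
  have r1 : r = 1 := fra_inj φ 6 (by rw [r6, map_one])
  rw [har, r1, one_mul]

end Pool.Agent.Helper51.GT
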