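import Pool.Agent.Helper69.GT.Fr
import Pool.Agent.Helper69.GT.NDB

set_option autoImplicit false

/-! PAIR: the pairing of consecutive directions is a product of the two Hermitian forms. -/

namespace Pool.Agent.Helper51.GT

/-- The identity behind `ST_PAIR`. -/
theorem pair_alg {K : Type} [Field K] (h2 : (2 : K) = 0)
    {a0 a1 a2 a3 a4 a5 a6 a7 f0 f2 f4 f6 c0 c2 c4 c6 : K}
    (ha1 : a1 ≠ 0) (ha3 : a3 ≠ 0) (ha5 : a5 ≠ 0) (ha7 : a7 ≠ 0)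
    (A : FrRel a0 a1 a2 a3 a4 a5 a6 a7) (hf : f0 + f2 + f4 + f6 = 0)
    (hc : c0 + c2 + c4 + c6 = 0) :
    f0 * ((c0 * a2 + c2 * a0) * a5⁻¹) + f2 * ((c2 * a4 + c4 * a2) * a7⁻¹) +
      f4 * ((c4 * a6 + c6 * a4) * a1⁻¹) + f6 * ((c6 * a0 + c0 * a6) * a3⁻¹) =
    (f0 * (a2 * (a5 * a7)⁻¹) + f0 * (a4 * (a7 * a1)⁻¹) + f2 * (a4 * (a7 * a1)⁻¹) +
      f6 * (a6 * (a1 * a3)⁻¹)) * (a1 * c2 + a1 * c4 + a3 * c4 + a7 * c6) := by
  obtain ⟨n0, n1, t0, t1, e0, e1, e2, e3, e4, e5, e6, e7⟩ := A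
  have hf4 : f4 = f0 + f2 + f6 := by linear_combination hf - (f0 + f2 + f6) * h2
  have hc6 : c6 = c0 + c2 + c4 := by linear_combination hc - (c0 + c2 + c4) * h2
  subst hf4 hc6
  -- the coefficients
  have hh : a1 * c2 + a1 * c4 + a3 * c4 + a7 * (c0 + c2 + c4) =
      a7 * c0 + (a1 + a7) * c2 + a5 * c4 := by
    linear_combination c4 * t1 - a5 * c4 * h2
  rw [hh]
  have k1 : a6 * a3⁻¹ + a4 * a1⁻¹ + a0 * a3⁻¹ = a7 * (a6 * (a1 * a3)⁻¹) := by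
    field_simp
    linear_combination e1 + a1 * t0 - (a1 * a2 + a1 * a4 + a6 * a7) * h2
  have k2 : a0 * a5⁻¹ + a4 * a1⁻¹ = (a1 + a7) * (a2 * (a5 * a7)⁻¹ + a4 * (a7 * a1)⁻¹) := by
    field_simp
    linear_combination a1 * e7 - (a1 * a7 * a2 + a1 * a1 * a2 + a1 * a4 * a5) * h2
  have k3 : a6 * a1⁻¹ + a4 * a1⁻¹ = a5 * (a2 * (a5 * a7)⁻¹ + a4 * (a7 * a1)⁻¹) := by
    field_simp
    linear_combination e7 + a7 * t0 - (a7 * a0 + a7 * a2 + a1 * a2 + a4 * a5) * h2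
  have k4 : a4 * a7⁻¹ + a4 * a1⁻¹ = (a1 + a7) * (a4 * (a7 * a1)⁻¹) := by
    field_simp
  have k5 : a4 * a1⁻¹ + a0 * a3⁻¹ = (a1 + a7) * (a6 * (a1 * a3)⁻¹) := by
    field_simp
    linear_combination e1 + a1 * t0 - (a1 * a2 + a1 * a4 + a1 * a6 + a6 * a7) * h2
  have k6 : a2 * a7⁻¹ + (a6 * a1⁻¹ + a4 * a1⁻¹) = a5 * (a4 * (a7 * a1)⁻¹) := by
    field_simp
    linear_combination e7 + a7 * t0 - (a7 * a0 + a7 * a2 + a4 * a5) * h2
  have k7 : a6 * a1⁻¹ + a4 * a1⁻¹ + a0 * a3⁻¹ = a5 * (a6 * (a1 * a3)⁻¹) := by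
    field_simp
    linear_combination e1 + a1 * t0 + a6 * t1 -
      (a1 * a2 + a1 * a4 + a6 * a7 + a6 * a5 + a6 * a1) * h2
  have k8 : a2 * a5⁻¹ + a4 * a1⁻¹ = a7 * (a2 * (a5 * a7)⁻¹ + a4 * (a7 * a1)⁻¹) := by
    field_simp
  have k9 : a4 * a1⁻¹ = a7 * (a4 * (a7 * a1)⁻¹) := by
    field_simp
  linear_combination f0 * c0 * k8 + f2 * c0 * k9 + f6 * c0 * k1 + f0 * c2 * k2 + f2 * c2 * k4 +
    f6 * c2 * k5 + f0 * c4 * k3 + f2 * c4 * k6 + f6 * c4 * k7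

theorem st_PAIR : ST_PAIR := by
  intro K _ φ hD a ha b hb c hc
  have h2 := hD.two
  have A := fra_rel hD ha
  have C := fra_rel hD hc
  obtain ⟨-, tf, -⟩ := ndb_bt hD hb
  have s9 : fr φ 9 a = fr φ 1 a := fra_add8 hD 1 a
  have s10 : fr φ 10 a = fr φ 2 a := fra_add8 hD 2 a
  have s11 : fr φ 11 a = fr φ 3 a := fra_add8 hD 3 a
  have s12 : fr φ 12 a = fr φ 4 a := fra_add8 hD 4 a
  have g1 : fr φ 1 (bt φ a) = fr φ 6 a * (fr φ 1 a * fr φ 3 a)⁻¹ := by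
    simp only [bt, map_mul, map_inv₀, fra_fr, Nat.reduceAdd]
  have g5 : fr φ 5 (bt φ a) = fr φ 2 a * (fr φ 5 a * fr φ 7 a)⁻¹ := by
    simp only [bt, map_mul, map_inv₀, fra_fr, Nat.reduceAdd, s10]
  have g7 : fr φ 7 (bt φ a) = fr φ 4 a * (fr φ 7 a * fr φ 1 a)⁻¹ := by
    simp only [bt, map_mul, map_inv₀, fra_fr, Nat.reduceAdd, s12, s9]
  have m2 : fr φ 2 (gm φ a c) =
      (fr φ 2 c * fr φ 4 a + fr φ 4 c * fr φ 2 a) * (fr φ 7 a)⁻¹ := by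
    simp only [gm, map_mul, map_add, map_inv₀, fra_fr, Nat.reduceAdd]
  have m4 : fr φ 4 (gm φ a c) =
      (fr φ 4 c * fr φ 6 a + fr φ 6 c * fr φ 4 a) * (fr φ 1 a)⁻¹ := by
    simp only [gm, map_mul, map_add, map_inv₀, fra_fr, Nat.reduceAdd, s9]
  have m6 : fr φ 6 (gm φ a c) = (fr φ 6 c * a + c * fr φ 6 a) * (fr φ 3 a)⁻¹ := by
    simp only [gm, map_mul, map_add, map_inv₀, fra_fr, Nat.reduceAdd, s11, hD.ord]
  have ha1 : fr φ 1 a ≠ 0 := by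
    intro h
    have := A.n1
    rw [h] at this
    simp at this
  have ha3 : fr φ 3 a ≠ 0 := by
    intro h
    have := A.n1
    rw [h] at this
    simp at this
  have ha5 : fr φ 5 a ≠ 0 := by
    intro h
    have := A.n1
    rw [h] at this
    simp at this
  have ha7 : fr φ 7 a ≠ 0 := by
    intro h
    have := A.n1
    rw [h] at this
    simp at this
  have key := pair_alg h2 ha1 ha3 ha5 ha7 A tf C.t0
  unfold kf hf
  rw [g1, g5, g7]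
  unfold tr4 at tf ⊢
  simp only [map_mul]
  rw [m2, m4, m6, ← key]
  rfl

end Pool.Agent.Helper51.GT
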