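import Pool.Agent.Helper51.GT.Defs

set_option autoImplicit false

/-! Rules for the powers `fr φ i` and the relations between the conjugates of an element of `XS`. -/

namespace Pool.Agent.Helper51.GT

theorem fra_zero {K : Type} [Field K] (φ : K ≃+* K) (x : K) : fr φ 0 x = x := by
  simp [fr]

theorem fra_fr {K : Type} [Field K] (φ : K ≃+* K) (i j : ℕ) (x : K) :
    fr φ i (fr φ j x) = fr φ (i + j) x := by
  unfold fr
  rw [pow_add]
  rfl

theorem fra_add8 {K : Type} [Field K] {φ : K ≃+* K} (h : Dat φ) (i : ℕ) (x : K) :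
    fr φ (i + 8) x = fr φ i x := by
  rw [← fra_fr, h.ord]

theorem fra_inj {K : Type} [Field K] (φ : K ≃+* K) (i : ℕ) {x y : K}
    (h : fr φ i x = fr φ i y) : x = y := (fr φ i).injective h

/-- All relations between the conjugates. -/
structure FrRel {K : Type} [Field K] (x0 x1 x2 x3 x4 x5 x6 x7 : K) : Prop where
  n0 : x0 * x2 * x4 * x6 = 1
  n1 : x1 * x3 * x5 * x7 = 1
  t0 : x0 + x2 + x4 + x6 = 0
  t1 : x1 + x3 + x5 + x7 = 0
  e0 : x0 * x1 + x0 * x3 + x2 * x3 + x5 * x6 = 0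
  e1 : x1 * x2 + x1 * x4 + x3 * x4 + x6 * x7 = 0
  e2 : x2 * x3 + x2 * x5 + x4 * x5 + x7 * x0 = 0
  e3 : x3 * x4 + x3 * x6 + x5 * x6 + x0 * x1 = 0
  e4 : x4 * x5 + x4 * x7 + x6 * x7 + x1 * x2 = 0
  e5 : x5 * x6 + x5 * x0 + x7 * x0 + x2 * x3 = 0
  e6 : x6 * x7 + x6 * x1 + x0 * x1 + x3 * x4 = 0
  e7 : x7 * x0 + x7 * x2 + x1 * x2 + x4 * x5 = 0

theorem fra_rel {K : Type} [Field K] {φ : K ≃+* K} (h : Dat φ) {x : K} (hx : x ∈ XS φ) :
    FrRel x (fr φ 1 x) (fr φ 2 x) (fr φ 3 x) (fr φ 4 x) (fr φ 5 x) (fr φ 6 x) (fr φ 7 x) := by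
  obtain ⟨hN, hT, hE⟩ := hx
  have s8 : fr φ 8 x = x := h.ord x
  have s9 : fr φ 9 x = fr φ 1 x := fra_add8 h 1 x
  have s10 : fr φ 10 x = fr φ 2 x := fra_add8 h 2 x
  have s11 : fr φ 11 x = fr φ 3 x := fra_add8 h 3 x
  have s12 : fr φ 12 x = fr φ 4 x := fra_add8 h 4 x
  have s13 : fr φ 13 x = fr φ 5 x := fra_add8 h 5 x
  have key : ∀ i, fr φ i x * fr φ (i + 1) x + fr φ i x * fr φ (i + 3) x +
      fr φ (i + 2) x * fr φ (i + 3) x + fr φ (i + 5) x * fr φ (i + 6) x = 0 := by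
    intro i
    have := congrArg (fr φ i) hE
    simpa only [map_add, map_mul, map_zero, fra_fr] using this
  have n1 := congrArg (fr φ 1) hN
  have t1 := congrArg (fr φ 1) hT
  simp only [map_add, map_mul, map_zero, map_one, fra_fr, Nat.reduceAdd] at n1 t1
  have k1 := key 1
  have k2 := key 2
  have k3 := key 3
  have k4 := key 4
  have k5 := key 5
  have k6 := key 6
  have k7 := key 7
  simp only [Nat.reduceAdd, s8, s9, s10, s11, s12, s13] at k1 k2 k3 k4 k5 k6 k7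
  exact ⟨hN, n1, hT, t1, hE, k1, k2, k3, k4, k5, k6, k7⟩

/-- Two elements of norm one with `a₀c₂ = a₂c₀` are equal. -/
theorem fra_eq {K : Type} [Field K] {φ : K ≃+* K} (h : Dat φ) {a c : K}
    (ha : a * fr φ 2 a * fr φ 4 a * fr φ 6 a = 1) (hc : c * fr φ 2 c * fr φ 4 c * fr φ 6 c = 1)
    (hac : a * fr φ 2 c = fr φ 2 a * c) : a = c := by
  have hc0 : c ≠ 0 := by
    rintro rfl
    simp at hc
  have hr : fr φ 2 (a / c) = a / c := by
    have : fr φ 2 c ≠ 0 := by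
      rw [Ne, map_eq_zero]
      exact hc0
    rw [map_div₀, div_eq_div_iff this hc0]
    linear_combination -hac
  set r := a / c with hrdef
  have har : a = r * c := by
    rw [hrdef, div_mul_cancel₀ _ hc0]
  have hr4 : fr φ 4 r = r := by
    have := fra_fr φ 2 2 r
    rw [hr, hr] at this
    exact this.symm
  have hr6 : fr φ 6 r = r := by
    have := fra_fr φ 2 4 r
    rw [hr4, hr] at this
    exact this.symm
  have h4 : r ^ 4 = 1 := by
    rw [har] at ha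
    simp only [map_mul, hr, hr4, hr6] at ha
    calc r ^ 4 = r ^ 4 * (c * fr φ 2 c * fr φ 4 c * fr φ 6 c) := by rw [hc, mul_one]
      _ = 1 := by rw [← ha]; ring
  have h5 : (r - 1) ^ 4 = 0 := by
    linear_combination h4 + (-2 * r ^ 3 + 3 * r ^ 2 - 2 * r + 1) * h.two
  have h6 : r - 1 = 0 := by
    exact pow_eq_zero_iff (by norm_num) |>.mp h5
  rw [har, sub_eq_zero.mp h6, one_mul]

end Pool.Agent.Helper51.GT
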